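import Pool.Agent.DiffProp.Cont

open MeasureTheory Set Filter Topology

set_option linter.unusedSectionVars false

namespace Pool.Agent.DiffProp

variable {X : Type*} [NormedAddCommGroup X] [NormedSpace ℂ X]

/-- An interval of length at least `2π` contains a multiple of `2π`. -/
lemma exists_multiple (p q : ℝ) (h : p + 2 * Real.pi ≤ q) :
    ∃ m : ℤ, p ≤ 2 * Real.pi * m ∧ 2 * Real.pi * m ≤ q := by
  have hpi : 0 < 2 * Real.pi := by positivity
  refine ⟨⌈p / (2 * Real.pi)⌉, ?_, ?_⟩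
  · have := Int.le_ceil (p / (2 * Real.pi))
    rw [div_le_iff₀ hpi] at this
    linarith
  · have := (Int.ceil_lt_add_one (p / (2 * Real.pi))).le
    have h2 : 2 * Real.pi * (⌈p / (2 * Real.pi)⌉ : ℝ) ≤ 2 * Real.pi * (p / (2 * Real.pi) + 1) :=
      mul_le_mul_of_nonneg_left this hpi.le
    have h3 : 2 * Real.pi * (p / (2 * Real.pi) + 1) = p + 2 * Real.pi := by
      field_simp
    linarith

/-- Existence of a small positive shift which does not change the chirp. -/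
lemma exists_shift (δ : ℝ) (hδ : 0 < δ) (hδ1 : δ ≤ 1 / 2) (T : ℝ) (hT : 20 / δ ≤ |T|) :
    ∃ x ∈ Icc (δ / 2) δ, ∃ m : ℤ, 2 * T * x + x ^ 2 = 2 * Real.pi * m := by
  set q : ℝ → ℝ := fun x => 2 * T * x + x ^ 2 with hq
  have hqc : Continuous q := by fun_prop
  have hTδ : 20 ≤ |T| * δ := by
    rw [div_le_iff₀ hδ] at hT
    exact hT
  have hpi : Real.pi < 4 := Real.pi_lt_four
  have hle : δ / 2 ≤ δ := by linarith
  have hsub : uIcc (q (δ / 2)) (q δ) ⊆ q '' uIcc (δ / 2) δ :=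
    intermediate_value_uIcc hqc.continuousOn
  have key : ∃ m : ℤ, 2 * Real.pi * (m : ℝ) ∈ uIcc (q (δ / 2)) (q δ) := by
    have hdiff : q δ - q (δ / 2) = T * δ + 3 / 4 * δ ^ 2 := by
      simp only [hq]; ring
    have hδ2 : δ ^ 2 ≤ 1 / 4 := by nlinarith
    rcases le_total 0 T with h0 | h0
    · rw [abs_of_nonneg h0] at hTδ
      obtain ⟨m, hm1, hm2⟩ := exists_multiple (q (δ / 2)) (q δ) (by nlinarith)
      exact ⟨m, mem_uIcc.2 (Or.inl ⟨hm1, hm2⟩)⟩
    · rw [abs_of_nonpos h0] at hTδ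
      obtain ⟨m, hm1, hm2⟩ := exists_multiple (q δ) (q (δ / 2)) (by nlinarith)
      exact ⟨m, mem_uIcc.2 (Or.inr ⟨hm1, hm2⟩)⟩
  obtain ⟨m, hm⟩ := key
  obtain ⟨x, hx, hqx⟩ := hsub hm
  rw [uIcc_of_le hle] at hx
  exact ⟨x, hx, m, hqx⟩

lemma chirp_shift_eq {T x : ℝ} {m : ℤ} (h : 2 * T * x + x ^ 2 = 2 * Real.pi * m) :
    chirp (T + x) = chirp T := by
  unfold chirp
  have : Complex.I * ((T + x : ℝ) : ℂ) ^ 2 =
      Complex.I * (T : ℂ) ^ 2 + m * (2 * Real.pi * Complex.I) := by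
    have h' : (2 * (T : ℂ) * x + (x : ℂ) ^ 2) = 2 * Real.pi * m := by exact_mod_cast h
    push_cast
    linear_combination Complex.I * h'
  rw [this, Complex.exp_add, Complex.exp_int_mul_two_pi_mul_I, mul_one]

lemma norm_chirp_shift {T x : ℝ} {m : ℤ} (h : 2 * T * x + x ^ 2 = 2 * Real.pi * m)
    (hx0 : 0 < x) (hx1 : x ≤ 1 / 2) : x ≤ ‖chirp (T + x + 1) - chirp (T + 1)‖ := by
  have e : chirp (T + x + 1) = chirp (T + 1) * Complex.exp (Complex.I * ((2 * x : ℝ) : ℂ)) := by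
    unfold chirp
    rw [← Complex.exp_add]
    have : Complex.I * ((T + x + 1 : ℝ) : ℂ) ^ 2 =
        Complex.I * ((T + 1 : ℝ) : ℂ) ^ 2 + Complex.I * ((2 * x : ℝ) : ℂ) +
          m * (2 * Real.pi * Complex.I) := by
      have h' : (2 * (T : ℂ) * x + (x : ℂ) ^ 2) = 2 * Real.pi * m := by exact_mod_cast h
      push_cast
      linear_combination Complex.I * h'
    rw [this, Complex.exp_add, Complex.exp_int_mul_two_pi_mul_I, mul_one]
  have e2 : chirp (T + x + 1) - chirp (T + 1) =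
      chirp (T + 1) * (Complex.exp (Complex.I * ((2 * x : ℝ) : ℂ)) - 1) := by
    rw [e]; ring
  rw [e2, norm_mul, norm_chirp, one_mul, Complex.norm_exp_I_mul_ofReal_sub_one]
  have hs : 2 * x / 2 = x := by ring
  rw [hs, norm_mul, Real.norm_eq_abs, Real.norm_eq_abs, abs_two]
  have h1 : x - x ^ 3 / 6 < Real.sin x := Real.sin_gt_sub_cube hx0
  have h2 : x ^ 3 ≤ x := by nlinarith [sq_nonneg x, mul_pos hx0 hx0]
  have h3 := le_abs_self (Real.sin x)
  linarith

/-- The chirp coefficient of a difference is bounded. -/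
lemma coeff_bounded {J : Set ℝ} (hJ : IsUpperSet J) (f : ℝ → X) (a : ℝ)
    (u v u1 v1 u2 v2 : ℝ → X) (hu : UCd J u) (hv : UCd J v) (hu1 : UCd J u1) (hv1 : UCd J v1)
    (hu2 : UCd J u2) (hv2 : UCd J v2)
    (h : ∀ t ∈ J, f (t + a) - f t = u t + chirp t • v t)
    (h1 : ∀ t ∈ J, f (t + 1) - f t = u1 t + chirp t • v1 t)
    (h2 : ∀ t ∈ J, f (t + (a + 1)) - f t = u2 t + chirp t • v2 t) :
    ∃ C : ℝ, 0 ≤ C ∧ ∀ t ∈ J, ‖v t‖ ≤ C := by
  have hJ1 : ∀ t ∈ J, t + 1 ∈ J := fun t ht => hJ (by linarith) ht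
  have shift_uc : ∀ w : ℝ → X, UCd J w → UCd J (fun t => w (t + 1)) := by
    intro w hw ε hε
    obtain ⟨δ, hδ, hh⟩ := hw ε hε
    refine ⟨δ, hδ, fun s hs t ht hst => hh _ (hJ1 s hs) _ (hJ1 t ht) ?_⟩
    have : s + 1 - (t + 1) = s - t := by ring
    rw [this]; exact hst
  set U : ℝ → X := fun t => u2 t - u (t + 1) - u1 t with hU
  set w : ℝ → X := fun t => v (t + 1) with hw
  set z : ℝ → X := fun t => v1 t - v2 t with hz
  have hUuc : UCd J U := (hu2.sub (shift_uc u hu)).sub hu1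
  have hwuc : UCd J w := shift_uc v hv
  have hzuc : UCd J z := hv1.sub hv2
  have rel : ∀ t ∈ J, U t = chirp (t + 1) • w t + chirp t • z t := by
    intro t ht
    have e0 := h (t + 1) (hJ1 t ht)
    have e1 := h1 t ht
    have e2 := h2 t ht
    have e3 : t + 1 + a = t + (a + 1) := by ring
    rw [e3] at e0
    have e4 : u2 t + chirp t • v2 t =
        (u (t + 1) + chirp (t + 1) • v (t + 1)) + (u1 t + chirp t • v1 t) := by
      rw [← e0, ← e1, ← e2]; abel
    simp only [hU, hw, hz, smul_sub]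
    have e5 : u2 t = (u (t + 1) + chirp (t + 1) • v (t + 1)) + (u1 t + chirp t • v1 t) -
      chirp t • v2 t := by rw [← e4]; abel
    rw [e5]; abel
  obtain ⟨δ1, hδ1, m1⟩ := hUuc 1 one_pos
  obtain ⟨δ2, hδ2, m2⟩ := hwuc 1 one_pos
  obtain ⟨δ3, hδ3, m3⟩ := hzuc 1 one_pos
  set δ : ℝ := min (min δ1 δ2) (min δ3 (1 / 2)) with hδdef
  have hδ : 0 < δ := lt_min (lt_min hδ1 hδ2) (lt_min hδ3 (by norm_num))
  have hδh : δ ≤ 1 / 2 := (min_le_right _ _).trans (min_le_right _ _)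
  have hδ1' : δ ≤ δ1 := (min_le_left _ _).trans (min_le_left _ _)
  have hδ2' : δ ≤ δ2 := (min_le_left _ _).trans (min_le_right _ _)
  have hδ3' : δ ≤ δ3 := (min_le_right _ _).trans (min_le_left _ _)
  have main : ∀ T ∈ J, 20 / δ ≤ |T| → ‖w T‖ ≤ 6 / δ := by
    intro T hT hTabs
    obtain ⟨x, hx, m, hm⟩ := exists_shift δ hδ hδh T hTabs
    have hx0 : 0 < x := by linarith [hx.1]
    have hTx : T + x ∈ J := hJ (by linarith) hT
    have c1 := chirp_shift_eq hm
    have c2 := norm_chirp_shift hm hx0 (hx.2.trans hδh)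
    have r1 := rel T hT
    have r2 := rel (T + x) hTx
    have d : |T + x - T| = x := by
      have : T + x - T = x := by ring
      rw [this, abs_of_pos hx0]
    have n1 := m1 (T + x) hTx T hT (by rw [d]; exact hx.2.trans hδ1')
    have n2 := m2 (T + x) hTx T hT (by rw [d]; exact hx.2.trans hδ2')
    have n3 := m3 (T + x) hTx T hT (by rw [d]; exact hx.2.trans hδ3')
    have e : (chirp (T + x + 1) - chirp (T + 1)) • w T =
        (U (T + x) - U T) - chirp (T + x + 1) • (w (T + x) - w T) -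
          chirp T • (z (T + x) - z T) := by
      rw [r1, r2, c1]
      module
    have n4 : ‖(chirp (T + x + 1) - chirp (T + 1)) • w T‖ ≤ 3 := by
      rw [e]
      refine (norm_sub_le _ _).trans ?_
      have := norm_sub_le (U (T + x) - U T) (chirp (T + x + 1) • (w (T + x) - w T))
      rw [norm_chirp_smul] at this
      rw [norm_chirp_smul]
      linarith
    rw [norm_smul] at n4
    have n5 : δ / 2 * ‖w T‖ ≤ 3 := by
      refine le_trans ?_ n4
      apply mul_le_mul_of_nonneg_right _ (norm_nonneg _)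
      exact hx.1.trans c2
    rw [le_div_iff₀ hδ]
    linarith
  set T0 : ℝ := 20 / δ with hT0
  have hT0pos : 0 < T0 := by positivity
  obtain ⟨C, hC0, hC⟩ := hv.bdd_incr hJ (2 * T0 + 1)
  refine ⟨6 / δ + C, by positivity, fun t ht => ?_⟩
  have final : ∀ s, 0 ≤ s → s ≤ 2 * T0 → T0 ≤ |t + s| → ‖v t‖ ≤ 6 / δ + C := by
    intro s hs0 hs hts
    have hmem : t + s ∈ J := hJ (by linarith) ht
    have a1 := main (t + s) hmem hts
    have a2 := hC t ht (s + 1) (by linarith) (by linarith)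
    have e : v t = v (t + s + 1) - (v (t + (s + 1)) - v t) := by
      have : t + (s + 1) = t + s + 1 := by ring
      rw [this]; abel
    rw [e]
    refine (norm_sub_le _ _).trans ?_
    exact add_le_add a1 a2
  by_cases hbig : T0 ≤ |t|
  · exact final 0 le_rfl (by linarith) (by simpa using hbig)
  · push Not at hbig
    have := abs_lt.1 hbig
    refine final (2 * T0) (by linarith) le_rfl ?_
    rw [abs_of_pos (by linarith [this.1])]
    linarith [this.1]

/-- All differences have bounded increments. -/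
lemma diff_incr {J : Set ℝ} (hJ : IsUpperSet J) (f : ℝ → X)
    (hA : ∀ a : ℝ, 0 < a → InA J (fun t => f (t + a) - f t)) (a : ℝ) (ha : 0 < a) (R : ℝ) :
    ∃ C : ℝ, 0 ≤ C ∧ ∀ t ∈ J, ∀ s, 0 ≤ s → s ≤ R →
      ‖(f (t + s + a) - f (t + s)) - (f (t + a) - f t)‖ ≤ C := by
  obtain ⟨u, v, hu, hv, h⟩ := hA a ha
  obtain ⟨u1, v1, hu1, hv1, h1⟩ := hA 1 one_pos
  obtain ⟨u2, v2, hu2, hv2, h2⟩ := hA (a + 1) (by linarith)
  rw [ucd_iff] at hu hv hu1 hv1 hu2 hv2
  obtain ⟨C, hC0, hC⟩ := coeff_bounded hJ f a u v u1 v1 u2 v2 hu hv hu1 hv1 hu2 hv2 h h1 h2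
  obtain ⟨C', hC'0, hC'⟩ := hu.bdd_incr hJ R
  refine ⟨C' + 2 * C, by positivity, fun t ht s hs0 hs => ?_⟩
  have hts : t + s ∈ J := hJ (by linarith) ht
  have e0 := h t ht
  have e1 := h (t + s) hts
  simp only at e0 e1
  rw [e0, e1]
  have e : u (t + s) + chirp (t + s) • v (t + s) - (u t + chirp t • v t) =
      (u (t + s) - u t) + (chirp (t + s) • v (t + s) - chirp t • v t) := by abel
  rw [e]
  refine (norm_add_le _ _).trans ?_
  have n1 := norm_sub_le (chirp (t + s) • v (t + s)) (chirp t • v t)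
  rw [norm_chirp_smul, norm_chirp_smul] at n1
  have := hC t ht
  have := hC (t + s) hts
  have := hC' t ht s hs0 hs
  linarith

end Pool.Agent.DiffProp
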