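import Pool.Agent.DiffProp.Suff

open MeasureTheory Set Filter Topology

set_option linter.unusedSectionVars false

namespace Pool.Agent.DiffProp

variable {X : Type*} [NormedAddCommGroup X] [NormedSpace ℂ X]

/-- Along a subsequence, translates of an integrable function converge almost everywhere. -/
lemma exists_good_translate (φ : ℝ → X) (hφ : Integrable φ) (x : ℕ → ℝ) (x0 : ℝ)
    (hx : Tendsto x atTop (𝓝 x0)) :
    ∃ ns : ℕ → ℕ, StrictMono ns ∧
      ∀ᵐ h : ℝ, Tendsto (fun k => φ (x (ns k) + h)) atTop (𝓝 (φ (x0 + h))) := by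
  let g : ℝ → C(ℝ, ℝ) := fun y => ⟨fun h => y + h, by fun_prop⟩
  have hg : Continuous g := by
    apply ContinuousMap.continuous_of_continuous_uncurry
    change Continuous fun p : ℝ × ℝ => p.1 + p.2
    fun_prop
  have hgm : ∀ y, MeasurePreserving (g y) volume volume := fun y =>
    measurePreserving_add_left volume y
  have hmem : MemLp φ 1 volume := memLp_one_iff_integrable.2 hφ
  let f0 : Lp X 1 (volume : Measure ℝ) := hmem.toLp φ
  have hlim : Tendsto (fun n => Lp.compMeasurePreserving (g (x n)) (hgm (x n)) f0) atTop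
      (𝓝 (Lp.compMeasurePreserving (g x0) (hgm x0) f0)) :=
    Filter.Tendsto.compMeasurePreservingLp (tendsto_const_nhds (x := f0))
      ((hg.tendsto x0).comp hx) (fun n => hgm (x n)) (hgm x0) (by norm_num)
  obtain ⟨ns, hns, hae⟩ := (tendstoInMeasure_of_tendsto_Lp hlim).exists_seq_tendsto_ae
  refine ⟨ns, hns, ?_⟩
  have hcoe : ∀ y, (Lp.compMeasurePreserving (g y) (hgm y) f0 : ℝ → X) =ᵐ[volume]
      fun h => φ (y + h) := by
    intro y
    refine (Lp.coeFn_compMeasurePreserving f0 (hgm y)).trans ?_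
    exact (hgm y).quasiMeasurePreserving.ae_eq_comp hmem.coeFn_toLp
  have hall : ∀ᵐ h : ℝ, ∀ k, (Lp.compMeasurePreserving (g (x (ns k))) (hgm (x (ns k))) f0 : ℝ → X) h
      = φ (x (ns k) + h) := ae_all_iff.2 fun k => hcoe _
  filter_upwards [hae, hall, hcoe x0] with h h1 h2 h3
  rw [← h3]
  refine h1.congr fun k => ?_
  exact h2 k

/-- A locally integrable function with continuous differences is continuous. -/
lemma continuousOn_of_diff {J : Set ℝ} (hJ : IsUpperSet J) (f : ℝ → X)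
    (hf : ∀ a b, Icc a b ⊆ J → IntegrableOn f (Icc a b))
    (hd : ∀ a : ℝ, 0 < a → ContinuousOn (fun t => f (t + a) - f t) J) : ContinuousOn f J := by
  intro x0 hx0
  refine tendsto_of_seq_tendsto ?_
  intro x hx
  refine tendsto_of_subseq_tendsto ?_
  intro ns hns
  have hy : Tendsto (fun n => x (ns n)) atTop (𝓝[J] x0) := hx.comp hns
  set y : ℕ → ℝ := fun n => x (ns n) with hydef
  have hy0 : Tendsto y atTop (𝓝 x0) := tendsto_nhds_of_tendsto_nhdsWithin hy
  have hyJ : ∀ᶠ n in atTop, y n ∈ J := hy.eventually self_mem_nhdsWithin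
  obtain ⟨lo, hloJ, hlo0, hlo⟩ : ∃ lo ∈ J, lo ≤ x0 ∧ ∀ᶠ n in atTop, lo ≤ y n := by
    by_cases hex : ∃ lo ∈ J, lo < x0
    · obtain ⟨lo, hlo, hlt⟩ := hex
      exact ⟨lo, hlo, hlt.le, (hy0.eventually (lt_mem_nhds hlt)).mono fun n hn => hn.le⟩
    · push Not at hex
      exact ⟨x0, hx0, le_rfl, hyJ.mono fun n hn => hex _ hn⟩
  set φ : ℝ → X := (Icc lo (x0 + 2)).indicator f with hφdef
  have hφ : Integrable φ := by
    rw [hφdef, integrable_indicator_iff measurableSet_Icc]
    exact hf _ _ fun t ht => hJ ht.1 hloJ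
  obtain ⟨ms, hms, hae⟩ := exists_good_translate φ hφ y x0 hy0
  have hex : ∃ h ∈ Ioo (0 : ℝ) 1, Tendsto (fun k => φ (y (ms k) + h)) atTop
      (𝓝 (φ (x0 + h))) := by
    have h1 : (volume.restrict (Ioo (0 : ℝ) 1)) ≠ 0 := by
      rw [Ne, Measure.restrict_eq_zero, Real.volume_Ioo]
      simp
    have : (ae (volume.restrict (Ioo (0 : ℝ) 1))).NeBot := ae_neBot.2 h1
    obtain ⟨h, hh1, hh2⟩ := ((ae_restrict_mem (measurableSet_Ioo (a := (0 : ℝ)) (b := 1))).and
      (ae_restrict_of_ae hae)).exists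
    exact ⟨h, hh1, hh2⟩
  obtain ⟨h, hh, hlim⟩ := hex
  refine ⟨ms, ?_⟩
  have hms' : Tendsto ms atTop atTop := hms.tendsto_atTop
  have e0 : φ (x0 + h) = f (x0 + h) := by
    rw [hφdef, indicator_of_mem]
    exact ⟨by linarith [hh.1], by linarith [hh.2]⟩
  rw [e0] at hlim
  have hlim1 : Tendsto (fun k => f (y (ms k) + h)) atTop (𝓝 (f (x0 + h))) := by
    refine hlim.congr' ?_
    have hup : ∀ᶠ n in atTop, y n < x0 + 1 := hy0.eventually_lt_const (by linarith)
    filter_upwards [hms'.eventually hlo, hms'.eventually hup] with k hk1 hk2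
    rw [hφdef, indicator_of_mem]
    exact ⟨by linarith [hh.1], by linarith [hh.2]⟩
  have hlim2 : Tendsto (fun k => f (y (ms k) + h) - f (y (ms k))) atTop
      (𝓝 (f (x0 + h) - f x0)) :=
    (hd h hh.1 x0 hx0).tendsto.comp (hy.comp hms')
  have := hlim1.sub hlim2
  simp only [sub_sub_cancel] at this
  exact this

end Pool.Agent.DiffProp
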