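import Mathlib

open MeasureTheory Set Filter Topology

set_option linter.unusedSectionVars false

namespace Pool.Agent.DiffProp

/-- The unimodular function `g(t) = exp(i t^2)`. -/
noncomputable def chirp (t : ℝ) : ℂ := Complex.exp (Complex.I * (t : ℂ) ^ 2)

variable {X : Type*} [NormedAddCommGroup X] [NormedSpace ℂ X]

/-- Membership in `UC(J,X) + g UC(J,X)`: on `J` the function is `u + g v` with `u`, `v` uniformly
continuous on `J`. -/
def InA (J : Set ℝ) (F : ℝ → X) : Prop :=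
  ∃ u v : ℝ → X, UniformContinuousOn u J ∧ UniformContinuousOn v J ∧
    ∀ t ∈ J, F t = u t + chirp t • v t

/-- Epsilon-delta form of uniform continuity on `J`. -/
def UCd (J : Set ℝ) (f : ℝ → X) : Prop :=
  ∀ ε > 0, ∃ δ > 0, ∀ s ∈ J, ∀ t ∈ J, |s - t| ≤ δ → ‖f s - f t‖ ≤ ε

lemma ucd_iff {J : Set ℝ} {f : ℝ → X} : UniformContinuousOn f J ↔ UCd J f := by
  rw [Metric.uniformContinuousOn_iff]
  constructor
  · intro h ε hε
    obtain ⟨δ, hδ, hh⟩ := h ε hε
    refine ⟨δ / 2, by positivity, fun s hs t ht hst => ?_⟩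
    have := hh s hs t ht (by rw [Real.dist_eq]; linarith)
    rw [dist_eq_norm] at this
    exact this.le
  · intro h ε hε
    obtain ⟨δ, hδ, hh⟩ := h (ε / 2) (by positivity)
    refine ⟨δ, hδ, fun s hs t ht hst => ?_⟩
    rw [Real.dist_eq] at hst
    have := hh s hs t ht hst.le
    rw [dist_eq_norm]
    linarith

lemma UCd.mono {J J' : Set ℝ} {f : ℝ → X} (h : UCd J f) (hJ : J' ⊆ J) : UCd J' f := by
  intro ε hε
  obtain ⟨δ, hδ, hh⟩ := h ε hε
  exact ⟨δ, hδ, fun s hs t ht => hh s (hJ hs) t (hJ ht)⟩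

lemma UCd.congr {J : Set ℝ} {f g : ℝ → X} (h : UCd J f) (hfg : ∀ t ∈ J, g t = f t) :
    UCd J g := by
  intro ε hε
  obtain ⟨δ, hδ, hh⟩ := h ε hε
  refine ⟨δ, hδ, fun s hs t ht hst => ?_⟩
  rw [hfg s hs, hfg t ht]
  exact hh s hs t ht hst

lemma UCd.add {J : Set ℝ} {f g : ℝ → X} (hf : UCd J f) (hg : UCd J g) :
    UCd J (fun t => f t + g t) := by
  intro ε hε
  obtain ⟨δ1, hδ1, h1⟩ := hf (ε / 2) (by positivity)
  obtain ⟨δ2, hδ2, h2⟩ := hg (ε / 2) (by positivity)
  refine ⟨min δ1 δ2, lt_min hδ1 hδ2, fun s hs t ht hst => ?_⟩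
  have e : f s + g s - (f t + g t) = (f s - f t) + (g s - g t) := by abel
  rw [e]
  refine (norm_add_le _ _).trans ?_
  have := h1 s hs t ht (hst.trans (min_le_left _ _))
  have := h2 s hs t ht (hst.trans (min_le_right _ _))
  linarith

lemma UCd.neg {J : Set ℝ} {f : ℝ → X} (hf : UCd J f) : UCd J (fun t => -f t) := by
  intro ε hε
  obtain ⟨δ1, hδ1, h1⟩ := hf ε hε
  refine ⟨δ1, hδ1, fun s hs t ht hst => ?_⟩
  have e : -f s - -f t = -(f s - f t) := by abel
  rw [e, norm_neg]
  exact h1 s hs t ht hst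

lemma UCd.sub {J : Set ℝ} {f g : ℝ → X} (hf : UCd J f) (hg : UCd J g) :
    UCd J (fun t => f t - g t) := by
  simpa [sub_eq_add_neg] using hf.add hg.neg

lemma UCd.const_smul {J : Set ℝ} {f : ℝ → X} (hf : UCd J f) (c : ℂ) :
    UCd J (fun t => c • f t) := by
  intro ε hε
  obtain ⟨δ1, hδ1, h1⟩ := hf (ε / (‖c‖ + 1)) (by positivity)
  refine ⟨δ1, hδ1, fun s hs t ht hst => ?_⟩
  rw [← smul_sub, norm_smul]
  have := h1 s hs t ht hst
  calc ‖c‖ * ‖f s - f t‖ ≤ (‖c‖ + 1) * (ε / (‖c‖ + 1)) := by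
        apply mul_le_mul (by linarith) this (norm_nonneg _) (by positivity)
    _ = ε := by field_simp

/-- A uniformly continuous function on an upper set has bounded increments over bounded steps. -/
lemma UCd.bdd_incr {J : Set ℝ} (hJ : IsUpperSet J) {f : ℝ → X} (hf : UCd J f) (R : ℝ) :
    ∃ C : ℝ, 0 ≤ C ∧ ∀ t ∈ J, ∀ s, 0 ≤ s → s ≤ R → ‖f (t + s) - f t‖ ≤ C := by
  obtain ⟨δ, hδ, h⟩ := hf 1 one_pos
  have key : ∀ n : ℕ, ∀ t ∈ J, ∀ s, 0 ≤ s → s ≤ n * δ → ‖f (t + s) - f t‖ ≤ n := by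
    intro n
    induction n with
    | zero =>
      intro t ht s hs0 hs
      have : s = 0 := by
        have : s ≤ 0 := by simpa using hs
        linarith
      simp [this]
    | succ n ih =>
      intro t ht s hs0 hs
      by_cases hsδ : s ≤ δ
      · have h1 := h (t + s) (hJ (by linarith) ht) t ht (by
          have : t + s - t = s := by ring
          rw [this, abs_of_nonneg hs0]; exact hsδ)
        push_cast
        have : (0 : ℝ) ≤ n := Nat.cast_nonneg n
        linarith
      · push Not at hsδ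
        have hmem : t + δ ∈ J := hJ (by linarith) ht
        have h1 := ih (t + δ) hmem (s - δ) (by linarith) (by push_cast at hs; linarith)
        have h2 := h (t + δ) hmem t ht (by
          have : t + δ - t = δ := by ring
          rw [this, abs_of_nonneg hδ.le])
        have e : f (t + s) - f t = (f (t + δ + (s - δ)) - f (t + δ)) + (f (t + δ) - f t) := by
          have : t + δ + (s - δ) = t + s := by ring
          rw [this]; abel
        rw [e]
        refine (norm_add_le _ _).trans ?_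
        push_cast
        linarith
  obtain ⟨n, hn⟩ := exists_nat_ge (R / δ)
  refine ⟨n, Nat.cast_nonneg n, fun t ht s hs0 hs => key n t ht s hs0 ?_⟩
  rw [div_le_iff₀ hδ] at hn
  linarith

lemma norm_chirp (t : ℝ) : ‖chirp t‖ = 1 := by
  rw [chirp]
  have : Complex.I * (t : ℂ) ^ 2 = ((t ^ 2 : ℝ) : ℂ) * Complex.I := by
    push_cast; ring
  rw [this]
  exact Complex.norm_exp_ofReal_mul_I _

lemma chirp_ne_zero (t : ℝ) : chirp t ≠ 0 := Complex.exp_ne_zero _

lemma continuous_chirp : Continuous chirp := by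
  unfold chirp
  fun_prop

lemma norm_chirp_smul (t : ℝ) (x : X) : ‖chirp t • x‖ = ‖x‖ := by
  rw [norm_smul, norm_chirp, one_mul]

lemma chirp_neg_of_sq {s t : ℝ} (h : s ^ 2 = t ^ 2 + Real.pi) : chirp s = -chirp t := by
  unfold chirp
  have : Complex.I * (s : ℂ) ^ 2 = Complex.I * (t : ℂ) ^ 2 + Real.pi * Complex.I := by
    have : ((s : ℂ)) ^ 2 = (t : ℂ) ^ 2 + Real.pi := by exact_mod_cast h
    rw [this]; ring
  rw [this, Complex.exp_add, Complex.exp_pi_mul_I]
  ring

/-- The three point expression which vanishes on functions `α + g β`. -/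
noncomputable def E3 (F : ℝ → X) (a b c : ℝ) : X :=
  (chirp b - chirp c) • F a + (chirp c - chirp a) • F b + (chirp a - chirp b) • F c

/-- The three point criterion at level `ε` and scale `δ`. -/
def Cr (J : Set ℝ) (F : ℝ → X) (ε δ : ℝ) : Prop :=
  ∀ a ∈ J, ∀ b ∈ J, ∀ c ∈ J, |a - b| ≤ δ → |b - c| ≤ δ → |a - c| ≤ δ → ‖E3 F a b c‖ ≤ ε

lemma norm_chirp_sub_le (s t : ℝ) : ‖chirp s - chirp t‖ ≤ 2 := by
  refine (norm_sub_le _ _).trans ?_
  rw [norm_chirp, norm_chirp]; norm_num

/-- Necessity of the criterion. -/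
lemma cr_of_inA {J : Set ℝ} {F : ℝ → X} (h : InA J F) : ∀ ε > 0, ∃ δ > 0, Cr J F ε δ := by
  obtain ⟨u, v, hu, hv, hF⟩ := h
  rw [ucd_iff] at hu hv
  intro ε hε
  obtain ⟨δ1, hδ1, h1⟩ := hu (ε / 8) (by positivity)
  obtain ⟨δ2, hδ2, h2⟩ := hv (ε / 8) (by positivity)
  refine ⟨min δ1 δ2, lt_min hδ1 hδ2, fun a ha b hb c hc hab hbc hac => ?_⟩
  have hab' : |b - a| ≤ min δ1 δ2 := by rwa [abs_sub_comm]
  have hac' : |c - a| ≤ min δ1 δ2 := by rwa [abs_sub_comm]
  have e : E3 F a b c = (chirp c - chirp a) • ((u b - u a) + chirp b • (v b - v a)) +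
      (chirp a - chirp b) • ((u c - u a) + chirp c • (v c - v a)) := by
    rw [E3, hF a ha, hF b hb, hF c hc]
    module
  rw [e]
  have n1 : ‖(u b - u a) + chirp b • (v b - v a)‖ ≤ ε / 4 := by
    refine (norm_add_le _ _).trans ?_
    rw [norm_chirp_smul]
    have := h1 b hb a ha (hab'.trans (min_le_left _ _))
    have := h2 b hb a ha (hab'.trans (min_le_right _ _))
    linarith
  have n2 : ‖(u c - u a) + chirp c • (v c - v a)‖ ≤ ε / 4 := by
    refine (norm_add_le _ _).trans ?_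
    rw [norm_chirp_smul]
    have := h1 c hc a ha (hac'.trans (min_le_left _ _))
    have := h2 c hc a ha (hac'.trans (min_le_right _ _))
    linarith
  refine (norm_add_le _ _).trans ?_
  rw [norm_smul, norm_smul]
  have m1 := norm_chirp_sub_le c a
  have m2 := norm_chirp_sub_le a b
  have p1 := mul_le_mul m1 n1 (norm_nonneg _) (by norm_num)
  have p2 := mul_le_mul m2 n2 (norm_nonneg _) (by norm_num)
  linarith

/-- The point to the right of `t` where the chirp has (for large `|t|`) the opposite sign. -/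
noncomputable def nxt (t : ℝ) : ℝ :=
  Real.sqrt (t * |t| + Real.pi) - Real.sqrt (-(t * |t| + Real.pi))

lemma continuous_nxt : Continuous nxt := by
  unfold nxt
  fun_prop

lemma nxt_of_nonneg {t : ℝ} (ht : 0 ≤ t) : nxt t = Real.sqrt (t ^ 2 + Real.pi) := by
  unfold nxt
  rw [abs_of_nonneg ht]
  have h1 : -(t * t + Real.pi) ≤ 0 := by nlinarith [Real.pi_pos]
  rw [Real.sqrt_eq_zero_of_nonpos h1, sub_zero]
  ring_nf

lemma nxt_of_neg {t : ℝ} (ht : t ≤ -2) : nxt t = -Real.sqrt (t ^ 2 - Real.pi) := by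
  unfold nxt
  rw [abs_of_nonpos (by linarith)]
  have h1 : t * -t + Real.pi ≤ 0 := by nlinarith [Real.pi_lt_four]
  rw [Real.sqrt_eq_zero_of_nonpos h1, zero_sub]
  ring_nf

lemma le_nxt (t : ℝ) : t ≤ nxt t := by
  unfold nxt
  rcases le_total 0 t with ht | ht
  · rw [abs_of_nonneg ht]
    have h1 : -(t * t + Real.pi) ≤ 0 := by nlinarith [Real.pi_pos]
    rw [Real.sqrt_eq_zero_of_nonpos h1, sub_zero]
    apply Real.le_sqrt_of_sq_le
    nlinarith [Real.pi_pos]
  · rw [abs_of_nonpos ht]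
    rcases le_total 0 (t * -t + Real.pi) with h1 | h1
    · rw [Real.sqrt_eq_zero_of_nonpos (x := -(t * -t + Real.pi)) (by linarith), sub_zero]
      exact ht.trans (Real.sqrt_nonneg _)
    · rw [Real.sqrt_eq_zero_of_nonpos h1, zero_sub]
      have h2 : Real.sqrt (-(t * -t + Real.pi)) ≤ -t := by
        rw [Real.sqrt_le_left (by linarith)]
        nlinarith [Real.pi_pos]
      linarith

lemma chirp_nxt {t : ℝ} (ht : 2 ≤ |t|) : chirp (nxt t) = -chirp t := by
  rcases le_abs.1 ht with h | h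
  · rw [nxt_of_nonneg (by linarith)]
    apply chirp_neg_of_sq
    rw [Real.sq_sqrt]
    positivity
  · have h2 : t ≤ -2 := by linarith
    rw [nxt_of_neg h2]
    have : chirp t = -chirp (-Real.sqrt (t ^ 2 - Real.pi)) := by
      apply chirp_neg_of_sq
      rw [neg_sq, Real.sq_sqrt]
      · ring
      · nlinarith [Real.pi_lt_four]
    rw [this, neg_neg]

lemma nxt_sub_le {t : ℝ} (ht : 2 ≤ |t|) : |nxt t - t| ≤ 4 / |t| := by
  have hpos : 0 < |t| := by linarith
  rw [abs_of_nonneg (by linarith [le_nxt t]), le_div_iff₀ hpos]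
  rcases le_abs.1 ht with h | h
  · rw [nxt_of_nonneg (by linarith), abs_of_pos (by linarith)]
    have h1 : Real.sqrt (t ^ 2 + Real.pi) ≤ t + 4 / t := by
      rw [Real.sqrt_le_left (by positivity)]
      have : (t + 4 / t) ^ 2 = t ^ 2 + 8 + 16 / t ^ 2 := by
        field_simp
        ring
      rw [this]
      have : 0 < 16 / t ^ 2 := by positivity
      linarith [Real.pi_lt_four]
    have h2 : (Real.sqrt (t ^ 2 + Real.pi) - t) * t ≤ (4 / t) * t :=
      mul_le_mul_of_nonneg_right (by linarith) (by linarith)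
    have h3 : (4 / t) * t = 4 := by field_simp
    linarith
  · have h2 : t ≤ -2 := by linarith
    rw [nxt_of_neg h2, abs_of_neg (by linarith)]
    set x := -t with hx
    have hx2 : 2 ≤ x := h
    have htx : t = -x := by rw [hx]; ring
    rw [htx]
    have h1 : x - 4 / x ≤ Real.sqrt ((-x) ^ 2 - Real.pi) := by
      apply Real.le_sqrt_of_sq_le
      have e1 : (x - 4 / x) ^ 2 = x ^ 2 - 8 + 16 / x ^ 2 := by
        field_simp
        ring
      rw [e1]
      have e2 : 16 / x ^ 2 ≤ 4 := by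
        rw [div_le_iff₀ (by positivity)]
        nlinarith
      have : (-x) ^ 2 = x ^ 2 := by ring
      rw [this]
      linarith [Real.pi_lt_four]
    have h3 : (-Real.sqrt ((-x) ^ 2 - Real.pi) - -x) * x ≤ (4 / x) * x :=
      mul_le_mul_of_nonneg_right (by linarith) (by linarith)
    have h4 : (4 / x) * x = 4 := by field_simp
    linarith

end Pool.Agent.DiffProp
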