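import Pool.Agent.DiffProp.Bdd

open MeasureTheory Set Filter Topology

set_option linter.unusedSectionVars false

namespace Pool.Agent.DiffProp

variable {X : Type*} [NormedAddCommGroup X] [NormedSpace ℂ X]

lemma ii_of_cont {J : Set ℝ} (hJ : IsUpperSet J) {f : ℝ → X} (hf : ContinuousOn f J)
    {a b : ℝ} (ha : a ∈ J) (hb : b ∈ J) : IntervalIntegrable f volume a b := by
  apply ContinuousOn.intervalIntegrable
  refine hf.mono fun x hx => ?_
  rw [mem_uIcc] at hx
  rcases hx with h | h
  · exact hJ h.1 ha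
  · exact hJ h.1 hb

/-- Increment formula for sliding integrals. -/
lemma slide_sub {J : Set ℝ} (hJ : IsUpperSet J) {f : ℝ → X} (hf : ContinuousOn f J)
    (p q : ℝ) (hp : 0 ≤ p) (hq : 0 ≤ q) {s t : ℝ} (hs : s ∈ J) (ht : t ∈ J) :
    (∫ x in (s + p)..(s + q), f x) - ∫ x in (t + p)..(t + q), f x =
      ∫ x in t..s, (f (x + q) - f (x + p)) := by
  have hsp : s + p ∈ J := hJ (by linarith) hs
  have hsq : s + q ∈ J := hJ (by linarith) hs
  have htp : t + p ∈ J := hJ (by linarith) ht
  have htq : t + q ∈ J := hJ (by linarith) ht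
  have i1 : ∀ {a b : ℝ}, a ∈ J → b ∈ J → IntervalIntegrable f volume a b :=
    fun ha hb => ii_of_cont hJ hf ha hb
  have hq' : IntervalIntegrable (fun x => f (x + q)) volume t s := by
    have := (i1 htq hsq).comp_add_right q
    simpa using this
  have hp' : IntervalIntegrable (fun x => f (x + p)) volume t s := by
    have := (i1 htp hsp).comp_add_right p
    simpa using this
  rw [intervalIntegral.integral_sub hq' hp', intervalIntegral.integral_comp_add_right,
    intervalIntegral.integral_comp_add_right]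
  have e1 := intervalIntegral.integral_add_adjacent_intervals (i1 htp htq) (i1 htq hsq)
  have e2 := intervalIntegral.integral_add_adjacent_intervals (i1 htp hsp) (i1 hsp hsq)
  have e3 : (∫ x in (t + p)..(t + q), f x) + ∫ x in (t + q)..(s + q), f x =
      (∫ x in (t + p)..(s + p), f x) + ∫ x in (s + p)..(s + q), f x := by
    rw [e1, e2]
  have e4 : (∫ x in (t + q)..(s + q), f x) = (∫ x in (t + p)..(s + p), f x) +
      (∫ x in (s + p)..(s + q), f x) - ∫ x in (t + p)..(t + q), f x := by
    rw [← e3]; abel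
  rw [e4]; abel

/-- The Fubini type identity for differences. -/
lemma fubini_diff {J : Set ℝ} (hJ : IsUpperSet J) {f : ℝ → X} (hf : ContinuousOn f J)
    (a b : ℝ) (ha : 0 ≤ a) (hb : 0 ≤ b) {x : ℝ} (hx : x ∈ J) :
    ∫ s in (0 : ℝ)..a, (f (x + s + b) - f (x + s)) =
      ∫ s in (0 : ℝ)..b, (f (x + s + a) - f (x + s)) := by
  have h1 : ∀ a b : ℝ, 0 ≤ a → 0 ≤ b → ∫ s in (0 : ℝ)..a, (f (x + s + b) - f (x + s)) =
      (∫ y in (x + a + 0)..(x + a + b), f y) - ∫ y in (x + 0)..(x + b), f y := by
    intro a b ha hb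
    rw [slide_sub hJ hf 0 b le_rfl hb (hJ (by linarith) hx) hx]
    have := intervalIntegral.integral_comp_add_left (a := 0) (b := a)
      (fun y => f (y + b) - f (y + 0)) x
    simp only [add_zero] at this ⊢
    rw [this]
  rw [h1 a b ha hb, h1 b a hb ha]
  have hxa : x + a ∈ J := hJ (by linarith) hx
  have hxb : x + b ∈ J := hJ (by linarith) hx
  have hxab : x + a + b ∈ J := hJ (by linarith) hxa
  have i1 : ∀ {a b : ℝ}, a ∈ J → b ∈ J → IntervalIntegrable f volume a b :=
    fun ha hb => ii_of_cont hJ hf ha hb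
  have e0 : x + b + a = x + a + b := by ring
  rw [e0]
  simp only [add_zero]
  have e1 := intervalIntegral.integral_add_adjacent_intervals (i1 hx hxa) (i1 hxa hxab)
  have e2 := intervalIntegral.integral_add_adjacent_intervals (i1 hx hxb) (i1 hxb hxab)
  have e3 : (∫ y in x..(x + a), f y) + ∫ y in (x + a)..(x + a + b), f y =
      (∫ y in x..(x + b), f y) + ∫ y in (x + b)..(x + a + b), f y := by
    rw [e1, e2]
  have e4 : (∫ y in (x + a)..(x + a + b), f y) = (∫ y in x..(x + b), f y) +
    (∫ y in (x + b)..(x + a + b), f y) - ∫ y in x..(x + a), f y := by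
    rw [← e3]; abel
  rw [e4]; abel

/-- The combination of differences is bounded. -/
lemma comb_bounded [CompleteSpace X] {J : Set ℝ} (hJ : IsUpperSet J) {f : ℝ → X} (hf : ContinuousOn f J)
    (hA : ∀ a : ℝ, 0 < a → InA J (fun t => f (t + a) - f t)) (h k : ℝ) (hh : 0 < h)
    (hk : 0 < k) :
    ∃ C : ℝ, 0 ≤ C ∧ ∀ x ∈ J, ‖h • (f (x + k) - f x) - k • (f (x + h) - f x)‖ ≤ C := by
  obtain ⟨C1, hC10, hC1⟩ := diff_incr hJ f hA k hk h
  obtain ⟨C2, hC20, hC2⟩ := diff_incr hJ f hA h hh k
  refine ⟨C1 * h + C2 * k, by positivity, fun x hx => ?_⟩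
  have hshift : ∀ b c : ℝ, 0 ≤ b → 0 ≤ c → IntervalIntegrable (fun s => f (x + s + b)) volume 0 c := by
    intro b c hb hc
    apply ContinuousOn.intervalIntegrable
    rw [uIcc_of_le hc]
    apply hf.comp (by fun_prop)
    intro s hs
    exact hJ (by linarith [hs.1]) hx
  have hshift0 : ∀ c : ℝ, 0 ≤ c → IntervalIntegrable (fun s => f (x + s)) volume 0 c := by
    intro c hc
    have := hshift 0 c le_rfl hc
    simpa using this
  have id1 : (∫ s in (0 : ℝ)..h, (f (x + s + k) - f (x + s))) - h • (f (x + k) - f x) =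
      ∫ s in (0 : ℝ)..h, ((f (x + s + k) - f (x + s)) - (f (x + k) - f x)) := by
    rw [intervalIntegral.integral_sub ((hshift k h hk.le hh.le).sub (hshift0 h hh.le))
      intervalIntegrable_const]
    rw [intervalIntegral.integral_const, sub_zero]
  have id2 : (∫ s in (0 : ℝ)..k, (f (x + s + h) - f (x + s))) - k • (f (x + h) - f x) =
      ∫ s in (0 : ℝ)..k, ((f (x + s + h) - f (x + s)) - (f (x + h) - f x)) := by
    rw [intervalIntegral.integral_sub ((hshift h k hh.le hk.le).sub (hshift0 k hk.le))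
      intervalIntegrable_const]
    rw [intervalIntegral.integral_const, sub_zero]
  have n1 : ‖∫ s in (0 : ℝ)..h, ((f (x + s + k) - f (x + s)) - (f (x + k) - f x))‖ ≤
      C1 * |h - 0| := by
    apply intervalIntegral.norm_integral_le_of_norm_le_const
    intro s hs
    rw [uIoc_of_le hh.le] at hs
    exact hC1 x hx s hs.1.le hs.2
  have n2 : ‖∫ s in (0 : ℝ)..k, ((f (x + s + h) - f (x + s)) - (f (x + h) - f x))‖ ≤
      C2 * |k - 0| := by
    apply intervalIntegral.norm_integral_le_of_norm_le_const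
    intro s hs
    rw [uIoc_of_le hk.le] at hs
    exact hC2 x hx s hs.1.le hs.2
  rw [sub_zero, abs_of_pos hh] at n1
  rw [sub_zero, abs_of_pos hk] at n2
  have fb := fubini_diff hJ hf h k hh.le hk.le hx
  have e : h • (f (x + k) - f x) - k • (f (x + h) - f x) =
      (∫ s in (0 : ℝ)..k, ((f (x + s + h) - f (x + s)) - (f (x + h) - f x))) -
      ∫ s in (0 : ℝ)..h, ((f (x + s + k) - f (x + s)) - (f (x + k) - f x)) := by
    rw [← id1, ← id2, fb]; abel
  rw [e]
  refine (norm_sub_le _ _).trans ?_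
  linarith

/-- The difference of two means is Lipschitz. -/
lemma mean_diff_lip [CompleteSpace X] {J : Set ℝ} (hJ : IsUpperSet J) {f : ℝ → X} (hf : ContinuousOn f J)
    (hA : ∀ a : ℝ, 0 < a → InA J (fun t => f (t + a) - f t)) (h c d : ℝ) (hh : 0 < h)
    (hc : 0 ≤ c) (hcd : c < d) :
    ∃ L : ℝ, 0 ≤ L ∧ ∀ s ∈ J, ∀ t ∈ J,
      ‖((d - c)⁻¹ • (∫ x in (s + c)..(s + d), f x) - h⁻¹ • ∫ x in s..(s + h), f x) -
        ((d - c)⁻¹ • (∫ x in (t + c)..(t + d), f x) - h⁻¹ • ∫ x in t..(t + h), f x)‖ ≤
        L * |s - t| := by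
  set k := d - c with hk
  have hkpos : 0 < k := by linarith
  obtain ⟨C1, hC10, hC1⟩ := comb_bounded hJ hf hA h k hh hkpos
  obtain ⟨C2, hC20, hC2⟩ := diff_incr hJ f hA k hkpos c
  set L : ℝ := k⁻¹ * C2 + k⁻¹ * h⁻¹ * C1 with hL
  have hL0 : 0 ≤ L := by positivity
  have bound : ∀ x ∈ J, ‖k⁻¹ • (f (x + d) - f (x + c)) - h⁻¹ • (f (x + h) - f x)‖ ≤ L := by
    intro x hx
    have e1 : x + d = x + c + k := by rw [hk]; ring
    have e : k⁻¹ • (f (x + d) - f (x + c)) - h⁻¹ • (f (x + h) - f x) =
        k⁻¹ • ((f (x + c + k) - f (x + c)) - (f (x + k) - f x)) +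
        (k⁻¹ * h⁻¹) • (h • (f (x + k) - f x) - k • (f (x + h) - f x)) := by
      rw [e1, smul_sub (k⁻¹ * h⁻¹), smul_smul, smul_smul]
      have r1 : k⁻¹ * h⁻¹ * h = k⁻¹ := by field_simp
      have r2 : k⁻¹ * h⁻¹ * k = h⁻¹ := by field_simp
      rw [r1, r2]
      module
    rw [e]
    refine (norm_add_le _ _).trans ?_
    rw [norm_smul, norm_smul, Real.norm_eq_abs, Real.norm_eq_abs,
      abs_of_pos (by positivity : (0 : ℝ) < k⁻¹), abs_of_pos (by positivity : (0 : ℝ) < k⁻¹ * h⁻¹)]
    apply add_le_add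
    · exact mul_le_mul_of_nonneg_left (hC2 x hx c hc le_rfl) (by positivity)
    · exact mul_le_mul_of_nonneg_left (hC1 x hx) (by positivity)
  refine ⟨L, hL0, fun s hs t ht => ?_⟩
  have e1 := slide_sub hJ hf c d hc (hc.trans hcd.le) hs ht
  have e2 := slide_sub hJ hf 0 h le_rfl hh.le hs ht
  simp only [add_zero] at e2
  have i1 : ∀ b, 0 ≤ b → IntervalIntegrable (fun x => f (x + b)) volume t s := by
    intro b hb
    have := (ii_of_cont hJ hf (a := t + b) (b := s + b) (hJ (by linarith) ht)
      (hJ (by linarith) hs)).comp_add_right b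
    simpa using this
  have i0 : IntervalIntegrable f volume t s := ii_of_cont hJ hf ht hs
  have e3 : (k⁻¹ • (∫ x in (s + c)..(s + d), f x) - h⁻¹ • ∫ x in s..(s + h), f x) -
        (k⁻¹ • (∫ x in (t + c)..(t + d), f x) - h⁻¹ • ∫ x in t..(t + h), f x) =
        ∫ x in t..s, (k⁻¹ • (f (x + d) - f (x + c)) - h⁻¹ • (f (x + h) - f x)) := by
    have j1 : IntervalIntegrable (fun x => k⁻¹ • (f (x + d) - f (x + c))) volume t s :=
      ((i1 d (hc.trans hcd.le)).sub (i1 c hc)).smul (k⁻¹)
    have j2 : IntervalIntegrable (fun x => h⁻¹ • (f (x + h) - f x)) volume t s :=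
      ((i1 h hh.le).sub i0).smul (h⁻¹)
    rw [intervalIntegral.integral_sub j1 j2, intervalIntegral.integral_smul,
      intervalIntegral.integral_smul, ← e1, ← e2, smul_sub, smul_sub]
    abel
  rw [e3]
  apply intervalIntegral.norm_integral_le_of_norm_le_const
  intro x hx
  apply bound
  rcases le_total t s with hts | hts
  · rw [uIoc_of_le hts] at hx
    exact hJ hx.1.le ht
  · rw [uIoc_of_ge hts] at hx
    exact hJ hx.1.le hs

lemma E3_sub (F G : ℝ → X) (a b c : ℝ) :
    E3 (fun t => F t - G t) a b c = E3 F a b c - E3 G a b c := by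
  simp only [E3]
  module

/-- Baire category step. -/
lemma baire_step {J : Set ℝ} (hJ : IsUpperSet J) {f : ℝ → X} (hf : ContinuousOn f J)
    (hA : ∀ a : ℝ, 0 < a → InA J (fun t => f (t + a) - f t)) (ε : ℝ) (hε : 0 < ε) :
    ∃ c d δ : ℝ, 1 < c ∧ c < d ∧ 0 < δ ∧
      ∀ r ∈ Icc c d, Cr J (fun t => f (t + r) - f t) ε δ := by
  set C : ℕ → Set ℝ := fun k => {s | s ∈ Icc (1 : ℝ) 2 ∧
    Cr J (fun t => f (t + s) - f t) ε (1 / ((k : ℝ) + 1))} with hC
  have hCclosed : ∀ k, IsClosed (C k) := by
    intro k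
    have : C k = Icc (1 : ℝ) 2 ∩ ⋂ (a) (_ : a ∈ J) (b) (_ : b ∈ J) (c) (_ : c ∈ J)
        (_ : |a - b| ≤ 1 / ((k : ℝ) + 1)) (_ : |b - c| ≤ 1 / ((k : ℝ) + 1))
        (_ : |a - c| ≤ 1 / ((k : ℝ) + 1)),
        (Icc (1 : ℝ) 2 ∩ {s | ‖E3 (fun t => f (t + s) - f t) a b c‖ ≤ ε}) := by
      ext s
      simp only [hC, mem_ofPred_eq, mem_inter_iff, mem_iInter, Cr]
      constructor
      · rintro ⟨h1, h2⟩
        exact ⟨h1, fun a ha b hb c hc h3 h4 h5 => ⟨h1, h2 a ha b hb c hc h3 h4 h5⟩⟩
      · rintro ⟨h1, h2⟩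
        exact ⟨h1, fun a ha b hb c hc h3 h4 h5 => (h2 a ha b hb c hc h3 h4 h5).2⟩
    rw [this]
    apply isClosed_Icc.inter
    refine isClosed_iInter fun a => isClosed_iInter fun ha => isClosed_iInter fun b =>
      isClosed_iInter fun hb => isClosed_iInter fun c => isClosed_iInter fun hc =>
      isClosed_iInter fun _ => isClosed_iInter fun _ => isClosed_iInter fun _ => ?_
    have hcont : ∀ a ∈ J, ContinuousOn (fun s => f (a + s) - f a) (Icc (1 : ℝ) 2) := by
      intro a ha
      apply ContinuousOn.sub _ continuousOn_const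
      apply hf.comp (by fun_prop)
      intro s hs
      exact hJ (by linarith [hs.1]) ha
    have hcont2 : ContinuousOn (fun s => ‖E3 (fun t => f (t + s) - f t) a b c‖)
        (Icc (1 : ℝ) 2) := by
      simp only [E3]
      exact ((((hcont a ha).const_smul _).add ((hcont b hb).const_smul _)).add
        ((hcont c hc).const_smul _)).norm
    exact hcont2.preimage_isClosed_of_isClosed isClosed_Icc isClosed_Iic
  set D : ℕ → Set ℝ := fun k => C k ∪ (Ioo (1 : ℝ) 2)ᶜ with hD
  have hDclosed : ∀ k, IsClosed (D k) := fun k =>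
    (hCclosed k).union isOpen_Ioo.isClosed_compl
  have hDU : ⋃ k, D k = univ := by
    rw [eq_univ_iff_forall]
    intro s
    by_cases hs : s ∈ Ioo (1 : ℝ) 2
    · obtain ⟨δ, hδ, h⟩ := cr_of_inA (hA s (by linarith [hs.1])) ε hε
      obtain ⟨k, hk⟩ := exists_nat_one_div_lt hδ
      refine mem_iUnion.2 ⟨k, Or.inl ⟨⟨hs.1.le, hs.2.le⟩, ?_⟩⟩
      intro a ha b hb c hc h1 h2 h3
      exact h a ha b hb c hc (h1.trans hk.le) (h2.trans hk.le) (h3.trans hk.le)
    · exact mem_iUnion.2 ⟨0, Or.inr hs⟩
  have hdense := dense_iUnion_interior_of_closed hDclosed hDU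
  obtain ⟨x, hx1, hx2⟩ := hdense.inter_open_nonempty (Ioo (1 : ℝ) 2) isOpen_Ioo
    ⟨3 / 2, by norm_num, by norm_num⟩
  obtain ⟨k, hk⟩ := mem_iUnion.1 hx2
  have hopen : IsOpen (Ioo (1 : ℝ) 2 ∩ interior (D k)) := isOpen_Ioo.inter isOpen_interior
  obtain ⟨η, hη, hball⟩ := Metric.isOpen_iff.1 hopen x ⟨hx1, hk⟩
  have hsub : ∀ r ∈ Icc x (x + η / 2), r ∈ Ioo (1 : ℝ) 2 ∩ interior (D k) := by
    intro r hr
    apply hball
    rw [Metric.mem_ball, Real.dist_eq, abs_of_nonneg (by linarith [hr.1])]
    linarith [hr.2]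
  refine ⟨x, x + η / 2, 1 / ((k : ℝ) + 1), hx1.1, by linarith, by positivity, ?_⟩
  intro r hr
  obtain ⟨h1, h2⟩ := hsub r hr
  rcases interior_subset h2 with h3 | h3
  · exact h3.2
  · exact absurd h1 h3

/-- Local uniform continuity of `f`. -/
lemma local_uc {J : Set ℝ} (hJ : IsUpperSet J) {f : ℝ → X} (hf : ContinuousOn f J)
    (hA : InA J (fun t => f (t + 1) - f t)) (R : ℝ) : UCd (J ∩ Icc (-R) R) f ∧
    ∃ lo ∈ J ∪ {R}, ∀ t ∈ J ∩ Icc (-R) R, lo ≤ t + 1 := by
  set S := J ∩ Icc (-R) R with hS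
  by_cases hne : S.Nonempty
  · have hbdd : BddBelow S := ⟨-R, fun t ht => ht.2.1⟩
    obtain ⟨lo, hlo, hlt⟩ := exists_lt_of_csInf_lt hne (lt_add_one (sInf S))
    have hlo' : ∀ t ∈ S, lo ≤ t + 1 := by
      intro t ht
      have := csInf_le hbdd ht
      linarith
    refine ⟨?_, lo, Or.inl hlo.1, hlo'⟩
    have hQ : Icc lo (R + 1) ⊆ J := fun x hx => hJ hx.1 hlo.1
    have huc : UCd (Icc lo (R + 1)) f := by
      rw [← ucd_iff]
      exact isCompact_Icc.uniformContinuousOn_of_continuous (hf.mono hQ)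
    have hshift : UCd S (fun t => f (t + 1)) := by
      intro ε hε
      obtain ⟨δ, hδ, h⟩ := huc ε hε
      refine ⟨δ, hδ, fun s hs t ht hst => h _ ⟨hlo' s hs, by linarith [hs.2.2]⟩ _
        ⟨hlo' t ht, by linarith [ht.2.2]⟩ ?_⟩
      have : s + 1 - (t + 1) = s - t := by ring
      rw [this]; exact hst
    obtain ⟨u, v, hu, hv, h⟩ := hA
    rw [ucd_iff] at hu hv
    have hd : UCd S (fun t => u t + chirp t • v t) :=
      (hu.mono inter_subset_left).add
        ((hv.mono inter_subset_left).smul_cont (-R) R inter_subset_right continuous_chirp)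
    refine (hshift.sub hd).congr ?_
    intro t ht
    have := h t ht.1
    simp only at this
    rw [← this]; abel
  · rw [not_nonempty_iff_eq_empty] at hne
    rw [hne]
    exact ⟨fun ε _ => ⟨1, one_pos, fun s hs => absurd hs (notMem_empty s)⟩, R, Or.inr rfl,
      fun t ht => absurd ht (notMem_empty t)⟩

/-- The difference property for `UC + g UC` on upper sets of the line. -/
theorem main [CompleteSpace X] {J : Set ℝ} (hJ : IsUpperSet J) (f : ℝ → X)
    (hf : ∀ a b, Icc a b ⊆ J → IntegrableOn f (Icc a b))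
    (hA : ∀ a : ℝ, 0 < a → InA J (fun t => f (t + a) - f t)) (h : ℝ) (hh : 0 < h) :
    InA J (fun t => f t - h⁻¹ • ∫ s in t..(t + h), f s) := by
  have hcont : ContinuousOn f J := by
    apply continuousOn_of_diff hJ f hf
    intro a ha
    obtain ⟨u, v, hu, hv, h⟩ := hA a ha
    refine ContinuousOn.congr (f := fun t => u t + chirp t • v t) ?_ h
    exact hu.continuousOn.add (continuous_chirp.continuousOn.smul hv.continuousOn)
  apply inA_of_cr hJ
  · -- local uniform continuity
    intro R
    obtain ⟨hfuc, lo, hlo, hlo'⟩ := local_uc hJ hcont (hA 1 one_pos) R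
    obtain ⟨L, hL0, hL⟩ := mean_diff_lip hJ hcont hA h 1 2 hh (by norm_num) (by norm_num)
    set S := J ∩ Icc (-R) R with hS
    set Λ : ℝ → X := fun t => ((2 : ℝ) - 1)⁻¹ • (∫ x in (t + 1)..(t + 2), f x) -
      h⁻¹ • ∫ x in t..(t + h), f x with hΛ
    have hΛuc : UCd S Λ := by
      intro ε hε
      refine ⟨ε / (L + 1), by positivity, fun s hs t ht hst => ?_⟩
      refine (hL s hs.1 t ht.1).trans ?_
      calc L * |s - t| ≤ (L + 1) * (ε / (L + 1)) := by
            apply mul_le_mul (by linarith) hst (abs_nonneg _) (by positivity)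
        _ = ε := by field_simp
    have hKuc : UCd S (fun t => ((2 : ℝ) - 1)⁻¹ • ∫ x in (t + 1)..(t + 2), f x) := by
      by_cases hne : S.Nonempty
      · have hloJ : lo ∈ J := by
          rcases hlo with h1 | h1
          · exact h1
          · obtain ⟨t, ht⟩ := hne
            rw [mem_singleton_iff.1 h1]
            exact hJ ht.2.2 ht.1
        obtain ⟨M, hM⟩ := isCompact_Icc.exists_bound_of_continuousOn (s := Icc lo (R + 2))
          (hcont.mono fun x hx => hJ hx.1 hloJ)
        intro ε hε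
        refine ⟨ε / (2 * |M| + 1), by positivity, fun s hs t ht hst => ?_⟩
        have e1 := slide_sub hJ hcont 1 2 (by norm_num) (by norm_num) hs.1 ht.1
        have e2 : ((2 : ℝ) - 1)⁻¹ = 1 := by norm_num
        simp only [e2, one_smul, e1]
        have n1 : ‖∫ x in t..s, (f (x + 2) - f (x + 1))‖ ≤ (2 * |M|) * |s - t| := by
          apply intervalIntegral.norm_integral_le_of_norm_le_const
          intro x hx
          have hxS : x ∈ S := by
            rcases le_total t s with hts | hts
            · rw [uIoc_of_le hts] at hx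
              exact ⟨hJ hx.1.le ht.1, by linarith [hx.1, ht.2.1], by linarith [hx.2, hs.2.2]⟩
            · rw [uIoc_of_ge hts] at hx
              exact ⟨hJ hx.1.le hs.1, by linarith [hx.1, hs.2.1], by linarith [hx.2, ht.2.2]⟩
          have b1 := hM (x + 2) ⟨by linarith [hlo' x hxS], by linarith [hxS.2.2]⟩
          have b2 := hM (x + 1) ⟨hlo' x hxS, by linarith [hxS.2.2]⟩
          have := le_abs_self M
          refine (norm_sub_le _ _).trans ?_
          linarith
        refine n1.trans ?_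
        calc 2 * |M| * |s - t| ≤ (2 * |M| + 1) * (ε / (2 * |M| + 1)) := by
              apply mul_le_mul (by linarith) hst (abs_nonneg _) (by positivity)
          _ = ε := by field_simp
      · rw [not_nonempty_iff_eq_empty] at hne
        rw [hne]
        exact fun ε _ => ⟨1, one_pos, fun s hs => absurd hs (notMem_empty s)⟩
    refine ((hfuc.add hΛuc).sub hKuc).congr ?_
    intro t _
    simp only [hΛ]
    abel
  · -- the criterion
    intro ε hε
    obtain ⟨c, d, δ, hc, hcd, hδ, hcr⟩ := baire_step hJ hcont hA (ε / 2) (by positivity)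
    have hkpos : 0 < d - c := by linarith
    obtain ⟨L, hL0, hL⟩ := mean_diff_lip hJ hcont hA h c d hh (by linarith) hcd
    set Λ : ℝ → X := fun t => (d - c)⁻¹ • (∫ x in (t + c)..(t + d), f x) -
      h⁻¹ • ∫ x in t..(t + h), f x with hΛ
    have hΛA : InA J Λ := by
      refine ⟨Λ, fun _ => 0, ?_, ?_, ?_⟩
      · rw [ucd_iff]
        intro ε hε
        refine ⟨ε / (L + 1), by positivity, fun s hs t ht hst => ?_⟩
        refine (hL s hs t ht).trans ?_
        calc L * |s - t| ≤ (L + 1) * (ε / (L + 1)) := by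
              apply mul_le_mul (by linarith) hst (abs_nonneg _) (by positivity)
          _ = ε := by field_simp
      · rw [ucd_iff]
        intro ε hε
        exact ⟨1, one_pos, fun s _ t _ _ => by simpa using hε.le⟩
      · intro t _
        simp
    obtain ⟨δ', hδ', hcr'⟩ := cr_of_inA hΛA (ε / 2) (by positivity)
    set H : ℝ → X := fun t => (d - c)⁻¹ • ∫ r in c..d, (f (t + r) - f t) with hH
    have hii : ∀ t ∈ J, IntervalIntegrable (fun r => f (t + r) - f t) volume c d := by
      intro t ht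
      apply ContinuousOn.intervalIntegrable
      rw [uIcc_of_le hcd.le]
      apply ContinuousOn.sub _ continuousOn_const
      apply hcont.comp (by fun_prop)
      intro s hs
      exact hJ (by linarith [hs.1]) ht
    have hHcr : Cr J H (ε / 2) δ := by
      intro a ha b hb c' hc' h1 h2 h3
      have e : E3 H a b c' = (d - c)⁻¹ • ∫ r in c..d, E3 (fun t => f (t + r) - f t) a b c' := by
        simp only [E3, hH]
        have j1 : IntervalIntegrable (fun r => (chirp b - chirp c') • (f (a + r) - f a))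
            volume c d := (hii a ha).smul _
        have j2 : IntervalIntegrable (fun r => (chirp c' - chirp a) • (f (b + r) - f b))
            volume c d := (hii b hb).smul _
        have j3 : IntervalIntegrable (fun r => (chirp a - chirp b) • (f (c' + r) - f c'))
            volume c d := (hii c' hc').smul _
        rw [intervalIntegral.integral_add (j1.add j2) j3, intervalIntegral.integral_add j1 j2,
          intervalIntegral.integral_smul, intervalIntegral.integral_smul,
          intervalIntegral.integral_smul, smul_add, smul_add]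
        rw [smul_comm (d - c)⁻¹ (chirp b - chirp c'), smul_comm (d - c)⁻¹ (chirp c' - chirp a),
          smul_comm (d - c)⁻¹ (chirp a - chirp b)]
      rw [e, norm_smul, Real.norm_eq_abs, abs_of_pos (by positivity : (0 : ℝ) < (d - c)⁻¹)]
      have n1 : ‖∫ r in c..d, E3 (fun t => f (t + r) - f t) a b c'‖ ≤ (ε / 2) * |d - c| := by
        apply intervalIntegral.norm_integral_le_of_norm_le_const
        intro r hr
        rw [uIoc_of_le hcd.le] at hr
        exact hcr r ⟨hr.1.le, hr.2⟩ a ha b hb c' hc' h1 h2 h3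
      rw [abs_of_pos hkpos] at n1
      calc (d - c)⁻¹ * ‖∫ r in c..d, E3 (fun t => f (t + r) - f t) a b c'‖ ≤
            (d - c)⁻¹ * ((ε / 2) * (d - c)) := by gcongr
        _ = ε / 2 := by field_simp
    have hrel : ∀ t ∈ J, f t - h⁻¹ • ∫ s in t..(t + h), f s = Λ t - H t := by
      intro t ht
      have hi1 : IntervalIntegrable (fun r => f (t + r)) volume c d := by
        apply ContinuousOn.intervalIntegrable
        rw [uIcc_of_le hcd.le]
        apply hcont.comp (by fun_prop)
        intro s hs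
        exact hJ (by linarith [hs.1]) ht
      have e1 : ∫ r in c..d, (f (t + r) - f t) =
          (∫ x in (t + c)..(t + d), f x) - (d - c) • f t := by
        rw [intervalIntegral.integral_sub hi1 intervalIntegrable_const,
          intervalIntegral.integral_const, intervalIntegral.integral_comp_add_left]
      simp only [hΛ, hH]
      rw [e1, smul_sub, smul_smul, inv_mul_cancel₀ hkpos.ne', one_smul]
      abel
    refine ⟨min δ δ', lt_min hδ hδ', ?_⟩
    intro a ha b hb c' hc' h1 h2 h3
    have e : E3 (fun t => f t - h⁻¹ • ∫ s in t..(t + h), f s) a b c' =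
        E3 Λ a b c' - E3 H a b c' := by
      rw [← E3_sub]
      simp only [E3]
      rw [hrel a ha, hrel b hb, hrel c' hc']
    rw [e]
    refine (norm_sub_le _ _).trans ?_
    have r1 := hcr' a ha b hb c' hc' (h1.trans (min_le_right _ _)) (h2.trans (min_le_right _ _))
      (h3.trans (min_le_right _ _))
    have r2 := hHcr a ha b hb c' hc' (h1.trans (min_le_left _ _)) (h2.trans (min_le_left _ _))
      (h3.trans (min_le_left _ _))
    linarith

end Pool.Agent.DiffProp
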