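import Pool.Agent.DiffProp.Defs

open MeasureTheory Set Filter Topology

set_option linter.unusedSectionVars false

namespace Pool.Agent.DiffProp

variable {X : Type*} [NormedAddCommGroup X] [NormedSpace ℂ X]

lemma UCd.bounded {S : Set ℝ} {f : ℝ → X} (hf : UCd S f) (a b : ℝ) (hS : S ⊆ Icc a b) :
    ∃ C : ℝ, 0 ≤ C ∧ ∀ t ∈ S, ‖f t‖ ≤ C := by
  obtain ⟨δ, hδ, h⟩ := hf 1 one_pos
  have htb : TotallyBounded S := (isCompact_Icc.totallyBounded).subset hS
  obtain ⟨T, hTS, hTfin, hcov⟩ := (totallyBounded_iff_subset.1 htb)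
    {p : ℝ × ℝ | dist p.1 p.2 < δ} (Metric.dist_mem_uniformity hδ)
  refine ⟨1 + ∑ t ∈ hTfin.toFinset, ‖f t‖, ?_, ?_⟩
  · have : 0 ≤ ∑ t ∈ hTfin.toFinset, ‖f t‖ := Finset.sum_nonneg fun _ _ => norm_nonneg _
    linarith
  · intro t ht
    have h1 := hcov ht
    simp only [mem_iUnion, mem_setOf_eq, exists_prop] at h1
    obtain ⟨c, hc, hd⟩ := h1
    have h2 := h t ht c (hTS hc) (by rw [← Real.dist_eq]; exact hd.le)
    have h3 : ‖f c‖ ≤ ∑ t ∈ hTfin.toFinset, ‖f t‖ :=
      Finset.single_le_sum (f := fun t => ‖f t‖) (fun _ _ => norm_nonneg _)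
        (hTfin.mem_toFinset.2 hc)
    have h4 : f t = (f t - f c) + f c := by abel
    rw [h4]
    exact (norm_add_le _ _).trans (by linarith)

/-- Product of a continuous scalar function and a uniformly continuous function on a bounded
set. -/
lemma UCd.smul_cont {S : Set ℝ} {f : ℝ → X} (hf : UCd S f) (a b : ℝ) (hS : S ⊆ Icc a b)
    {φ : ℝ → ℂ} (hφ : Continuous φ) : UCd S (fun t => φ t • f t) := by
  obtain ⟨C, hC0, hC⟩ := hf.bounded a b hS
  have hφuc : UniformContinuousOn φ (Icc a b) :=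
    isCompact_Icc.uniformContinuousOn_of_continuous hφ.continuousOn
  obtain ⟨M, hM⟩ := isCompact_Icc.exists_bound_of_continuousOn (s := Icc a b) hφ.continuousOn
  intro ε hε
  rw [Metric.uniformContinuousOn_iff] at hφuc
  obtain ⟨δ1, hδ1, h1⟩ := hφuc (ε / (2 * (C + 1))) (by positivity)
  have hM1 : 0 < |M| + 1 := by positivity
  obtain ⟨δ2, hδ2, h2⟩ := hf (ε / (2 * (|M| + 1))) (by positivity)
  refine ⟨min (δ1 / 2) δ2, lt_min (by positivity) hδ2, fun s hs t ht hst => ?_⟩
  have e : φ s • f s - φ t • f t = φ s • (f s - f t) + (φ s - φ t) • f t := by module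
  rw [e]
  refine (norm_add_le _ _).trans ?_
  rw [norm_smul, norm_smul]
  have a1 := h1 s (hS hs) t (hS ht) (by
    rw [Real.dist_eq]
    have := hst.trans (min_le_left _ _)
    linarith)
  rw [dist_eq_norm] at a1
  have a2 := h2 s hs t ht (hst.trans (min_le_right _ _))
  have a3 : ‖φ s‖ ≤ |M| + 1 := (hM s (hS hs)).trans ((le_abs_self M).trans (by linarith))
  have b1 : ‖φ s‖ * ‖f s - f t‖ ≤ (|M| + 1) * (ε / (2 * (|M| + 1))) :=
    mul_le_mul a3 a2 (norm_nonneg _) hM1.le
  have b2 : ‖φ s - φ t‖ * ‖f t‖ ≤ (ε / (2 * (C + 1))) * (C + 1) :=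
    mul_le_mul a1.le (by linarith [hC t ht]) (norm_nonneg _) (by positivity)
  have c1 : (|M| + 1) * (ε / (2 * (|M| + 1))) = ε / 2 := by field_simp
  have c2 : (ε / (2 * (C + 1))) * (C + 1) = ε / 2 := by field_simp
  linarith

/-- Uniform continuity from local uniform continuity and uniform continuity near infinity. -/
lemma ucd_of_local {J : Set ℝ} {f : ℝ → X} (h1 : ∀ R : ℝ, UCd (J ∩ Icc (-R) R) f)
    (h2 : ∀ ε > 0, ∃ R : ℝ, ∃ δ > 0, ∀ s ∈ J, ∀ t ∈ J, |s - t| ≤ δ → R ≤ |s| → R ≤ |t| →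
      ‖f s - f t‖ ≤ ε) : UCd J f := by
  intro ε hε
  obtain ⟨R, δ, hδ, hfar⟩ := h2 ε hε
  obtain ⟨δ', hδ', hnear⟩ := h1 (|R| + 3) ε hε
  refine ⟨min (min δ δ') 1, lt_min (lt_min hδ hδ') one_pos, fun s hs t ht hst => ?_⟩
  have hst1 : |s - t| ≤ 1 := hst.trans (min_le_right _ _)
  have hstδ : |s - t| ≤ δ := hst.trans ((min_le_left _ _).trans (min_le_left _ _))
  have hstδ' : |s - t| ≤ δ' := hst.trans ((min_le_left _ _).trans (min_le_right _ _))
  by_cases hR : |R| + 2 ≤ |t|
  · apply hfar s hs t ht hstδ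
    · have h3 : |t| ≤ |s| + |s - t| := by
        have : t = s - (s - t) := by ring
        calc |t| = |s - (s - t)| := by rw [← this]
          _ ≤ |s| + |s - t| := abs_sub _ _
      have := le_abs_self R
      linarith
    · have := le_abs_self R
      linarith
  · push Not at hR
    have h3 : |s| ≤ |t| + |s - t| := by
      have : s = t + (s - t) := by ring
      calc |s| = |t + (s - t)| := by rw [← this]
        _ ≤ |t| + |s - t| := abs_add_le _ _
    have ht' : |t| ≤ |R| + 3 := by linarith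
    have hs' : |s| ≤ |R| + 3 := by linarith
    exact hnear s ⟨hs, abs_le.1 hs'⟩ t ⟨ht, abs_le.1 ht'⟩ hstδ'

/-- Sufficiency of the criterion. -/
lemma inA_of_cr {J : Set ℝ} (hJ : IsUpperSet J) {G : ℝ → X}
    (hloc : ∀ R : ℝ, UCd (J ∩ Icc (-R) R) G) (hcr : ∀ ε > 0, ∃ δ > 0, Cr J G ε δ) :
    InA J G := by
  have hinv : Continuous fun t : ℝ => (chirp t)⁻¹ :=
    continuous_chirp.inv₀ chirp_ne_zero
  -- the composition with `nxt` is locally uniformly continuous
  have hnxt : ∀ R : ℝ, UCd (J ∩ Icc (-R) R) (fun t => G (nxt t)) := by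
    intro R ε hε
    obtain ⟨R', hR'⟩ := isCompact_Icc.exists_bound_of_continuousOn (s := Icc (-R) R)
      continuous_nxt.continuousOn
    obtain ⟨δ, hδ, h⟩ := hloc R' ε hε
    have huc : UniformContinuousOn nxt (Icc (-R) R) :=
      isCompact_Icc.uniformContinuousOn_of_continuous continuous_nxt.continuousOn
    rw [Metric.uniformContinuousOn_iff] at huc
    obtain ⟨η, hη, h'⟩ := huc δ hδ
    refine ⟨η / 2, by positivity, fun s hs t ht hst => ?_⟩
    apply h
    · refine ⟨hJ (le_nxt s) hs.1, ?_⟩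
      have := hR' s hs.2
      rw [Real.norm_eq_abs] at this
      exact abs_le.1 this
    · refine ⟨hJ (le_nxt t) ht.1, ?_⟩
      have := hR' t ht.2
      rw [Real.norm_eq_abs] at this
      exact abs_le.1 this
    · have := h' s hs.2 t ht.2 (by rw [Real.dist_eq]; linarith)
      rw [Real.dist_eq] at this
      exact this.le
  have hloc1 : ∀ R : ℝ, UCd (J ∩ Icc (-R) R) (fun t => (1 / 2 : ℂ) • (G t + G (nxt t))) :=
    fun R => ((hloc R).add (hnxt R)).const_smul _
  have hloc2 : ∀ R : ℝ, UCd (J ∩ Icc (-R) R)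
      (fun t => (chirp t)⁻¹ • ((1 / 2 : ℂ) • (G t - G (nxt t)))) :=
    fun R => (((hloc R).sub (hnxt R)).const_smul _).smul_cont (-R) R inter_subset_right hinv
  -- the two relations at infinity
  have key : ∀ ε > 0, ∃ R : ℝ, 2 ≤ R ∧ ∃ δ > 0, ∀ s ∈ J, ∀ t ∈ J, |s - t| ≤ δ → R ≤ |s| →
      R ≤ |t| → ‖(2 * chirp t) • G s - (chirp t + chirp s) • G t
          - (chirp t - chirp s) • G (nxt t)‖ ≤ ε ∧
        ‖(2 * chirp t) • G (nxt s) - (chirp t - chirp s) • G t
          - (chirp t + chirp s) • G (nxt t)‖ ≤ ε := by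
    intro ε hε
    obtain ⟨δ, hδ, h⟩ := hcr ε hε
    refine ⟨max 2 (16 / δ), le_max_left _ _, δ / 2, by positivity, ?_⟩
    intro s hs t ht hst hRs hRt
    have hs2 : 2 ≤ |s| := (le_max_left _ _).trans hRs
    have ht2 : 2 ≤ |t| := (le_max_left _ _).trans hRt
    have dist_nxt : ∀ r : ℝ, max 2 (16 / δ) ≤ |r| → |nxt r - r| ≤ δ / 4 := by
      intro r hr
      have hr2 : 2 ≤ |r| := (le_max_left _ _).trans hr
      have hr0 : 0 < |r| := by linarith
      refine (nxt_sub_le hr2).trans ?_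
      have h16 : 16 / δ ≤ |r| := (le_max_right _ _).trans hr
      rw [div_le_iff₀ hδ] at h16
      rw [div_le_iff₀ hr0]
      linarith
    have ds := dist_nxt s hRs
    have dt := dist_nxt t hRt
    have hns := hJ (le_nxt s) hs
    have hnt := hJ (le_nxt t) ht
    have cs := chirp_nxt hs2
    have ct := chirp_nxt ht2
    rw [abs_le] at ds dt hst
    constructor
    · have := h s hs t ht (nxt t) hnt
        (by rw [abs_le]; constructor <;> linarith [hst.1, hst.2])
        (by rw [abs_le]; constructor <;> linarith [dt.1, dt.2])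
        (by rw [abs_le]; constructor <;> linarith [dt.1, dt.2, hst.1, hst.2])
      rw [E3, ct] at this
      have e : (2 * chirp t) • G s - (chirp t + chirp s) • G t
          - (chirp t - chirp s) • G (nxt t) =
          (chirp t - -chirp t) • G s + (-chirp t - chirp s) • G t +
            (chirp s - chirp t) • G (nxt t) := by module
      rw [e]
      exact this
    · have := h (nxt s) hns t ht (nxt t) hnt
        (by rw [abs_le]; constructor <;> linarith [hst.1, hst.2, ds.1, ds.2])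
        (by rw [abs_le]; constructor <;> linarith [dt.1, dt.2])
        (by rw [abs_le]; constructor <;> linarith [dt.1, dt.2, hst.1, hst.2, ds.1, ds.2])
      rw [E3, ct, cs] at this
      have e : (2 * chirp t) • G (nxt s) - (chirp t - chirp s) • G t
          - (chirp t + chirp s) • G (nxt t) =
          (chirp t - -chirp t) • G (nxt s) + (-chirp t - -chirp s) • G t +
            (-chirp s - chirp t) • G (nxt t) := by module
      rw [e]
      exact this
  refine ⟨fun t => (1 / 2 : ℂ) • (G t + G (nxt t)),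
    fun t => (chirp t)⁻¹ • ((1 / 2 : ℂ) • (G t - G (nxt t))), ?_, ?_, ?_⟩
  · rw [ucd_iff]
    refine ucd_of_local hloc1 ?_
    intro ε hε
    obtain ⟨R, -, δ, hδ, h⟩ := key ε hε
    refine ⟨R, δ, hδ, fun s hs t ht hst hRs hRt => ?_⟩
    obtain ⟨k1, k2⟩ := h s hs t ht hst hRs hRt
    set P := (2 * chirp t) • G s - (chirp t + chirp s) • G t
          - (chirp t - chirp s) • G (nxt t) with hP
    set Q := (2 * chirp t) • G (nxt s) - (chirp t - chirp s) • G t
          - (chirp t + chirp s) • G (nxt t) with hQ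
    have e : (1 / 2 : ℂ) • (G s + G (nxt s)) - (1 / 2 : ℂ) • (G t + G (nxt t)) =
        ((1 / 4 : ℂ) * (chirp t)⁻¹) • (P + Q) := by
      have hc := chirp_ne_zero t
      rw [hP, hQ]
      simp only [smul_add, smul_sub, smul_smul, add_smul, sub_smul]
      have e1 : (1 / 4 : ℂ) * (chirp t)⁻¹ * (2 * chirp t) = 1 / 2 := by field_simp; norm_num
      have e2 : (1 / 4 : ℂ) * (chirp t)⁻¹ * chirp t = 1 / 4 := by field_simp
      rw [e1, e2]
      module
    rw [e, norm_smul, norm_mul, norm_inv, norm_chirp]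
    have n4 : ‖(1 / 4 : ℂ)‖ = 1 / 4 := by
      rw [norm_div]; simp
    rw [n4]
    have := norm_add_le P Q
    linarith
  · rw [ucd_iff]
    refine ucd_of_local hloc2 ?_
    intro ε hε
    obtain ⟨R, -, δ, hδ, h⟩ := key ε hε
    refine ⟨R, δ, hδ, fun s hs t ht hst hRs hRt => ?_⟩
    obtain ⟨k1, k2⟩ := h s hs t ht hst hRs hRt
    set P := (2 * chirp t) • G s - (chirp t + chirp s) • G t
          - (chirp t - chirp s) • G (nxt t) with hP
    set Q := (2 * chirp t) • G (nxt s) - (chirp t - chirp s) • G t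
          - (chirp t + chirp s) • G (nxt t) with hQ
    have e : (chirp s)⁻¹ • ((1 / 2 : ℂ) • (G s - G (nxt s))) -
        (chirp t)⁻¹ • ((1 / 2 : ℂ) • (G t - G (nxt t))) =
        ((1 / 4 : ℂ) * (chirp t)⁻¹ * (chirp s)⁻¹) • (P - Q) := by
      have hc := chirp_ne_zero t
      have hc' := chirp_ne_zero s
      rw [hP, hQ]
      simp only [smul_add, smul_sub, smul_smul, add_smul, sub_smul]
      have e1 : (1 / 4 : ℂ) * (chirp t)⁻¹ * (chirp s)⁻¹ * (2 * chirp t) =
        (chirp s)⁻¹ * (1 / 2) := by field_simp; norm_num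
      have e2 : (1 / 4 : ℂ) * (chirp t)⁻¹ * (chirp s)⁻¹ * chirp t =
        (chirp s)⁻¹ * (1 / 4) := by field_simp
      have e3 : (1 / 4 : ℂ) * (chirp t)⁻¹ * (chirp s)⁻¹ * chirp s =
        (chirp t)⁻¹ * (1 / 4) := by field_simp
      rw [e1, e2, e3]
      module
    rw [e, norm_smul, norm_mul, norm_mul, norm_inv, norm_inv, norm_chirp, norm_chirp]
    have n4 : ‖(1 / 4 : ℂ)‖ = 1 / 4 := by
      rw [norm_div]; simp
    rw [n4]
    have := norm_sub_le P Q
    linarith
  · intro t _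
    rw [smul_smul, mul_inv_cancel₀ (chirp_ne_zero t), one_smul]
    module

end Pool.Agent.DiffProp
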